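import Pool.Agent.H86.CMLib.W245.EB.Core3

set_option autoImplicit false
set_option linter.unusedVariables false
set_option linter.unusedSectionVars false
set_option linter.unusedSimpArgs false

/-!
# The analytic upper bound
-/

open Filter MvPolynomial NumberField
open scoped Topology PeriodPair

noncomputable section

namespace Pool.Agent.W245.EB

open H667R3

namespace SL

variable {n : ℕ} {c : SL n} {S : ℕ} (e : c.Den S)

/-- auxiliary point -/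
def q0 (c : SL n) : ℂ := c.L.ω₁ / 2

lemma q0_notMem : c.q0 ∉ c.L.lattice := c.L.ω₁_div_two_notMem_lattice

lemma gr_sigma2 (L : PeriodPair) : Gr (fun z => sigma L z * sigma L z) := (Gr.sigma L).mul (Gr.sigma L)

lemma gr_Afun (L : PeriodPair) (q : ℂ) : Gr (Afun L q) := by
  have h1 : Gr (fun z => ℘[L] q * (sigma L z * sigma L z)) := (Gr.const _).mul (gr_sigma2 L)
  have h2 : Gr (fun z => (sigma L q ^ 2)⁻¹ * (sigma L (z + q) * sigma L (z + -q))) :=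
    (Gr.const _).mul (((Gr.sigma L).shift q).mul ((Gr.sigma L).shift (-q)))
  exact h1.sub h2

/-- growth after a linear substitution -/
lemma gr_comp {f : ℂ → ℂ} (hf : Gr f) (i : c.I) : ∃ C : ℝ, 0 ≤ C ∧
    ∀ z, ‖f (c.ell i z + c.q)‖ ≤ Real.exp (C * (1 + ‖z‖ ^ 3)) := by
  obtain ⟨C, hC, h⟩ := hf.shift c.q
  refine ⟨C * (1 + ‖c.ell i‖ ^ 3), by positivity, fun z => ?_⟩
  refine (h (c.ell i z)).trans (Real.exp_le_exp.mpr ?_)
  rw [mul_assoc]
  apply mul_le_mul_of_nonneg_left _ hC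
  have h1 : ‖c.ell i z‖ ≤ ‖c.ell i‖ * ‖z‖ := (c.ell i).le_opNorm z
  have h2 : ‖c.ell i z‖ ^ 3 ≤ (‖c.ell i‖ * ‖z‖) ^ 3 := by gcongr
  have h3 : 0 ≤ ‖c.ell i‖ ^ 3 := by positivity
  have h4 : 0 ≤ ‖z‖ ^ 3 := by positivity
  rw [mul_pow] at h2
  nlinarith

lemma exists_growth : ∃ E : ℝ, 0 ≤ E ∧ ∀ (i : c.I) z,
    ‖(e.d : ℂ) ^ 2 * Afun c.L c.q0 (c.ell i z + c.q)‖ ≤ Real.exp (E * (1 + ‖z‖ ^ 3)) ∧
    ‖sigma c.L (c.ell i z + c.q) ^ 2‖ ≤ Real.exp (E * (1 + ‖z‖ ^ 3)) := by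
  choose C hC hC' using fun i => gr_comp (c := c) ((Gr.const ((e.d : ℂ) ^ 2)).mul (gr_Afun c.L c.q0)) i
  choose C2 hC2 hC2' using fun i => gr_comp (c := c) (gr_sigma2 c.L) i
  obtain ⟨M, hM⟩ := Finite.exists_le (fun i => max (C i) (C2 i))
  refine ⟨max 0 M, le_max_left _ _, fun i z => ?_⟩
  have h1 : C i ≤ max 0 M := (le_max_left _ _).trans ((hM i).trans (le_max_right _ _))
  have h2 : C2 i ≤ max 0 M := (le_max_right _ _).trans ((hM i).trans (le_max_right _ _))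
  have h0 : 0 ≤ 1 + ‖z‖ ^ 3 := by positivity
  refine ⟨(hC' i z).trans (Real.exp_le_exp.mpr (mul_le_mul_of_nonneg_right h1 h0)), ?_⟩
  rw [pow_two]
  exact (hC2' i z).trans (Real.exp_le_exp.mpr (mul_le_mul_of_nonneg_right h2 h0))

/-- the denominator -/
def theta (c : SL n) (Lc : ℕ) (z : Fin n → ℂ) : ℂ := ∏ i, (sigma c.L (c.ell i z + c.q) ^ 2) ^ Lc

namespace Den

/-- the entire function -/
def G {Lc : ℕ} (ξ : (c.I → Fin Lc) → 𝓞 c.K) (z : Fin n → ℂ) : ℂ :=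
  ∑ lam : c.I → Fin Lc, c.emb (ξ lam) * ∏ i,
    (((e.d : ℂ) ^ 2 * Afun c.L c.q0 (c.ell i z + c.q)) ^ (lam i : ℕ) *
      (sigma c.L (c.ell i z + c.q) ^ 2) ^ (Lc - lam i))

lemma Fn_eq {Lc : ℕ} (ξ : (c.I → Fin Lc) → 𝓞 c.K) (z : Fin n → ℂ) :
    e.Fn (Phi ξ) z = ∑ lam : c.I → Fin Lc, c.emb (ξ lam) * ∏ i,
      ((e.d : ℂ) ^ 2 * ℘[c.L] (c.ell i z + c.q)) ^ (lam i : ℕ) := by
  simp only [Fn, ev, Phi]
  rw [MvPolynomial.eval₂_sum]
  apply Finset.sum_congr rfl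
  intro lam _
  rw [MvPolynomial.smul_eq_C_mul, MvPolynomial.eval₂_mul, MvPolynomial.eval₂_C,
    MvPolynomial.eval₂_monomial]
  congr 1
  rw [map_one, one_mul, Finsupp.prod_fintype _ _ (fun _ => pow_zero _), Fintype.prod_prod_type]
  apply Finset.prod_congr rfl
  intro i _
  simp [mu, val]

lemma G_eq {Lc : ℕ} (ξ : (c.I → Fin Lc) → 𝓞 c.K) {z : Fin n → ℂ}
    (hz : ∀ i, c.ell i z + c.q ∉ c.L.lattice) :
    e.G ξ z = c.theta Lc z * e.Fn (Phi ξ) z := by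
  rw [Fn_eq, G, theta, Finset.mul_sum]
  apply Finset.sum_congr rfl
  intro lam _
  rw [mul_left_comm, ← Finset.prod_mul_distrib]
  congr 1
  apply Finset.prod_congr rfl
  intro i _
  have h1 := sigma_ne_zero c.L (hz i)
  rw [wp_eq_Afun c.L (hz i) c.q0_notMem]
  set s := sigma c.L (c.ell i z + c.q) ^ 2 with hs
  have hs0 : s ≠ 0 := pow_ne_zero _ h1
  have h2 : s ^ Lc = s ^ (Lc - (lam i : ℕ)) * s ^ (lam i : ℕ) := by
    rw [← pow_add, Nat.sub_add_cancel (lam i).2.le]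
  rw [h2, ← mul_div_assoc, div_pow]
  field_simp

lemma analytic_G {Lc : ℕ} (ξ : (c.I → Fin Lc) → 𝓞 c.K) :
    AnalyticOnNhd ℂ (e.G ξ) Set.univ := by
  intro z _
  have h1 : ∀ (f : ℂ → ℂ), Differentiable ℂ f → ∀ i : c.I,
      AnalyticAt ℂ (fun z => f (c.ell i z + c.q)) z := fun f hf i =>
    c.analytic_comp i (hf.analyticAt _)
  apply Finset.analyticAt_fun_sum
  intro lam _
  apply analyticAt_const.fun_mul
  apply Finset.analyticAt_fun_prod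
  intro i _
  apply AnalyticAt.fun_mul
  · apply AnalyticAt.fun_pow
    exact analyticAt_const.fun_mul (h1 _ (differentiable_Afun c.L c.q0) i)
  · apply AnalyticAt.fun_pow
    apply AnalyticAt.fun_pow
    exact h1 _ (differentiable_sigma c.L) i

lemma analytic_theta (Lc : ℕ) : AnalyticOnNhd ℂ (c.theta Lc) c.O := by
  intro z _
  apply Finset.analyticAt_fun_prod
  intro i _
  apply AnalyticAt.fun_pow
  apply AnalyticAt.fun_pow
  exact c.analytic_comp i ((differentiable_sigma c.L).analyticAt _)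

lemma G_eqOn {Lc : ℕ} (ξ : (c.I → Fin Lc) → 𝓞 c.K) :
    Set.EqOn (e.G ξ) (fun z => c.theta Lc z * e.Fn (Phi ξ) z) c.O :=
  fun z hz => e.G_eq ξ (c.O_notMem hz)

/-- growth of `G` -/
lemma norm_G_le {E : ℝ} (hE : 0 ≤ E) (hEg : ∀ (i : c.I) z,
    ‖(e.d : ℂ) ^ 2 * Afun c.L c.q0 (c.ell i z + c.q)‖ ≤ Real.exp (E * (1 + ‖z‖ ^ 3)) ∧
    ‖sigma c.L (c.ell i z + c.q) ^ 2‖ ≤ Real.exp (E * (1 + ‖z‖ ^ 3)))
    {Lc : ℕ} (ξ : (c.I → Fin Lc) → 𝓞 c.K) {H : ℝ} (hH : ∀ lam, ‖c.emb (ξ lam)‖ ≤ H)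
    (z : Fin n → ℂ) :
    ‖e.G ξ z‖ ≤ (Lc : ℝ) ^ (n + 1) * (H * Real.exp (E * (1 + ‖z‖ ^ 3)) ^ ((n + 1) * Lc)) := by
  have hcard : (Lc : ℝ) ^ (n + 1) = ∑ _lam : c.I → Fin Lc, (1 : ℝ) := by
    simp [c.cardI]
  rw [hcard, Finset.sum_mul, G]
  refine (norm_sum_le _ _).trans ?_
  apply Finset.sum_le_sum
  intro lam _
  rw [one_mul, norm_mul]
  apply mul_le_mul (hH lam) _ (norm_nonneg _) ((norm_nonneg _).trans (hH lam))
  rw [norm_prod]
  set X := Real.exp (E * (1 + ‖z‖ ^ 3)) with hX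
  have hX0 : 0 ≤ X := Real.exp_nonneg _
  calc ∏ i, ‖((e.d : ℂ) ^ 2 * Afun c.L c.q0 (c.ell i z + c.q)) ^ (lam i : ℕ) *
      (sigma c.L (c.ell i z + c.q) ^ 2) ^ (Lc - lam i)‖ ≤ ∏ _i : c.I, X ^ Lc := by
        apply Finset.prod_le_prod
        · intro i _
          exact norm_nonneg _
        · intro i _
          rw [norm_mul, norm_pow, norm_pow]
          calc _ ≤ X ^ (lam i : ℕ) * X ^ (Lc - (lam i : ℕ)) := by
                apply mul_le_mul (pow_le_pow_left₀ (norm_nonneg _) (hEg i z).1 _)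
                  (pow_le_pow_left₀ (norm_nonneg _) (hEg i z).2 _) (by positivity) (by positivity)
            _ = X ^ Lc := by
                rw [← pow_add]
                congr 1
                have := (lam i).2
                omega
    _ = X ^ ((n + 1) * Lc) := by
        rw [Finset.prod_const, Finset.card_univ, c.cardI, ← pow_mul, mul_comm Lc]

end Den

lemma exists_theta_bound (c : SL n) (S : ℕ) : ∃ v : ℝ, 0 < v ∧ v ≤ 1 ∧
    ∀ (s : Fin n → Fin S) (Lc : ℕ), v ^ Lc ≤ ‖c.theta Lc (c.pt s)‖ := by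
  have hpos : ∀ s : Fin n → Fin S, 0 < ∏ i, ‖sigma c.L (c.ell i (c.pt s) + c.q) ^ 2‖ := by
    intro s
    apply Finset.prod_pos
    intro i _
    rw [norm_pos_iff]
    exact pow_ne_zero _ (sigma_ne_zero c.L (c.O_notMem (c.pt_mem s) i))
  obtain ⟨M, hM⟩ := Finite.exists_le
    (fun s : Fin n → Fin S => (∏ i, ‖sigma c.L (c.ell i (c.pt s) + c.q) ^ 2‖)⁻¹)
  have hM1 : 0 < max 1 M := lt_of_lt_of_le one_pos (le_max_left _ _)
  refine ⟨(max 1 M)⁻¹, inv_pos.2 hM1, inv_le_one_of_one_le₀ (le_max_left _ _), ?_⟩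
  intro s Lc
  have h1 : ‖c.theta Lc (c.pt s)‖ = (∏ i, ‖sigma c.L (c.ell i (c.pt s) + c.q) ^ 2‖) ^ Lc := by
    rw [theta, norm_prod, ← Finset.prod_pow]
    apply Finset.prod_congr rfl
    intro i _
    rw [norm_pow _ Lc]
  rw [h1]
  apply pow_le_pow_left₀ (inv_pos.2 hM1).le
  rw [inv_le_comm₀ hM1 (hpos s)]
  exact (hM s).trans (le_max_right _ _)

/-- moving along the grid -/
lemma pt_update (c : SL n) {S : ℕ} (s : Fin n → Fin S) (k : Fin n) (r : Fin S) :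
    c.pt (Function.update s k r) = c.pt s + (((r : ℕ) : ℂ) - ((s k : ℕ) : ℂ)) • c.U k := by
  classical
  rw [pt, pt, ← Finset.add_sum_erase _ _ (Finset.mem_univ k),
    ← Finset.add_sum_erase _ (fun j => ((s j : ℕ) : ℂ) • c.U j) (Finset.mem_univ k)]
  have h1 : ∑ x ∈ Finset.univ.erase k, (((Function.update s k r) x : ℕ) : ℂ) • c.U x =
      ∑ x ∈ Finset.univ.erase k, ((s x : ℕ) : ℂ) • c.U x := by
    apply Finset.sum_congr rfl
    intro x hx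
    rw [Function.update_of_ne (Finset.ne_of_mem_erase hx)]
  rw [h1, Function.update_self]
  module

namespace Den

theorem upper (hn : 0 < n) (hS : 0 < S) : ∃ K₃ : ℝ, 1 ≤ K₃ ∧ ∀ (Lc m ρ : ℕ)
    (ξ : (c.I → Fin Lc) → 𝓞 c.K) (H : ℝ), 0 ≤ H → (∀ lam, ‖c.emb (ξ lam)‖ ≤ H) → 0 < m → Lc ≤ m →
    ρ ^ 3 * Lc ≤ m → 2 * S ≤ ρ → (∀ s : Fin n → Fin S, Ord (e.Fn (Phi ξ)) (c.pt s) m) →
    ∀ (s : Fin n → Fin S) (l : List (Fin n)), l.length = m →
      ‖DL (l.map e.v) (e.Fn (Phi ξ)) (c.pt s)‖ * (ρ : ℝ) ^ (S * (m / n)) ≤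
        K₃ ^ m * (m : ℝ) ^ (2 * m) * H := by
  classical
  obtain ⟨E, hE, hEg⟩ := exists_growth e
  obtain ⟨v, hv0, hv1, hv⟩ := exists_theta_bound c S
  -- the norms of the directions and of the grid points
  obtain ⟨V0, hV0⟩ := Finite.exists_le (fun k : Fin n => ‖c.U k‖)
  obtain ⟨P0, hP0⟩ := Finite.exists_le (fun s : Fin n → Fin S => ‖c.pt s‖)
  set V : ℝ := max 1 V0 with hVdef
  have hV1 : 1 ≤ V := le_max_left _ _
  have hVU : ∀ k, ‖c.U k‖ ≤ V := fun k => (hV0 k).trans (le_max_right _ _)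
  set P : ℝ := max 0 P0 with hPdef
  have hP1 : 0 ≤ P := le_max_left _ _
  have hPs : ∀ s : Fin n → Fin S, ‖c.pt s‖ ≤ P := fun s => (hP0 s).trans (le_max_right _ _)
  -- expressing the directions `v j` in terms of `U`
  have hspan : ∀ w : Fin n → ℂ, ∃ κ : Fin n → ℂ, w = ∑ k, κ k • c.U k := by
    intro w
    have h1 : Submodule.span ℂ (Set.range c.U) = ⊤ := by
      apply c.hU.span_eq_top_of_card_eq_finrank'
      simp
    have h2 : w ∈ Submodule.span ℂ (Set.range c.U) := by rw [h1]; trivial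
    rw [Submodule.mem_span_range_iff_exists_fun] at h2
    obtain ⟨κ, hκ⟩ := h2
    exact ⟨κ, hκ.symm⟩
  choose κ hκ using hspan
  set CU : ℝ := 1 + ∑ j, ∑ k, ‖κ (e.v j) k‖ with hCU
  have hCU1 : 1 ≤ CU := by
    rw [hCU]
    have : 0 ≤ ∑ j, ∑ k, ‖κ (e.v j) k‖ :=
      Finset.sum_nonneg fun j _ => Finset.sum_nonneg fun k _ => norm_nonneg _
    linarith
  set W : ℝ := V + 1 + P with hW
  have hW0 : 0 ≤ W := by linarith
  set E₁ : ℝ := Real.exp (E * (1 + W ^ 3) * (n + 1)) with hE₁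
  have hE₁1 : 1 ≤ E₁ := by
    apply Real.one_le_exp
    positivity
  have hSR : (1 : ℝ) ≤ S := by exact_mod_cast hS
  refine ⟨v⁻¹ * CU * (2 * S) ^ S * V * 2 ^ (n + 1) * E₁, ?_, ?_⟩
  · have h1 : 1 ≤ v⁻¹ := (one_le_inv₀ hv0).2 hv1
    have h2 : (1 : ℝ) ≤ (2 * S) ^ S := one_le_pow₀ (by linarith)
    have h3 : (1 : ℝ) ≤ 2 ^ (n + 1) := one_le_pow₀ (by norm_num)
    calc (1 : ℝ) = 1 * 1 * 1 * 1 * 1 * 1 := by ring
      _ ≤ _ := by gcongr
  intro Lc m ρ ξ H hH0 hH hm hLm hρ hSρ hord s l hlen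
  have hmR : (1 : ℝ) ≤ m := by exact_mod_cast hm
  have hρR : 2 * (S : ℝ) ≤ ρ := by exact_mod_cast hSρ
  have hρ1 : (1 : ℝ) ≤ ρ := by linarith
  have hρ0 : (0 : ℝ) < ρ := by linarith
  -- the entire function at the grid points
  have hmul : ∀ s : Fin n → Fin S, Ord (e.G ξ) (c.pt s) m ∧ ∀ l : List (Fin n → ℂ), l.length = m →
      DL l (e.G ξ) (c.pt s) = c.theta Lc (c.pt s) * DL l (e.Fn (Phi ξ)) (c.pt s) := by
    intro s
    obtain ⟨a1, a2⟩ := ord_mul c.isOpen_O (c.pt_mem s) m (c.theta Lc) (e.Fn (Phi ξ))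
      (analytic_theta Lc) (e.analytic_Fn _) (hord s)
    refine ⟨?_, ?_⟩
    · intro l hl
      rw [DL_congr c.isOpen_O (e.G_eqOn ξ) l (c.pt_mem s)]
      exact a1 l hl
    · intro l hl
      rw [DL_congr c.isOpen_O (e.G_eqOn ξ) l (c.pt_mem s)]
      exact a2 l hl
  -- Schwarz lemma
  set BG : ℝ := (2 ^ (n + 1)) ^ m * (H * E₁ ^ m) with hBG
  have hBG0 : 0 ≤ BG := by positivity
  have hGball : ∀ w : Fin n → ℂ, ‖w - c.pt s‖ ≤ ρ * V + 1 → ‖e.G ξ w‖ ≤ BG := by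
    intro w hw
    refine (e.norm_G_le hE hEg ξ hH w).trans ?_
    have h1 : (Lc : ℝ) ^ (n + 1) ≤ (2 ^ (n + 1)) ^ m := by
      have h2 : Lc < 2 ^ m := hLm.trans_lt (Nat.lt_two_pow_self)
      have h3 : Lc ^ (n + 1) ≤ (2 ^ m) ^ (n + 1) := Nat.pow_le_pow_left h2.le _
      have h4 : (2 ^ m) ^ (n + 1) = (2 ^ (n + 1)) ^ m := by
        rw [← pow_mul, ← pow_mul, mul_comm]
      rw [h4] at h3
      exact_mod_cast h3
    have h2 : ‖w‖ ≤ ρ * W := by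
      calc ‖w‖ = ‖(w - c.pt s) + c.pt s‖ := by rw [sub_add_cancel]
        _ ≤ ‖w - c.pt s‖ + ‖c.pt s‖ := norm_add_le _ _
        _ ≤ (ρ * V + 1) + P := add_le_add hw (hPs s)
        _ ≤ ρ * W := by rw [hW]; nlinarith
    have h3 : Real.exp (E * (1 + ‖w‖ ^ 3)) ^ ((n + 1) * Lc) ≤ E₁ ^ m := by
      rw [← Real.exp_nat_mul, hE₁, ← Real.exp_nat_mul]
      apply Real.exp_le_exp.mpr
      have h4 : ‖w‖ ^ 3 ≤ (ρ * W) ^ 3 := by gcongr
      have h5 : (ρ : ℝ) ^ 3 * Lc ≤ m := by exact_mod_cast hρ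
      have h6 : (Lc : ℝ) ≤ m := by exact_mod_cast hLm
      have h7 : (1 + ‖w‖ ^ 3) * Lc ≤ (1 + W ^ 3) * m := by
        have h8 : (0 : ℝ) ≤ Lc := Nat.cast_nonneg _
        calc (1 + ‖w‖ ^ 3) * Lc ≤ (1 + (ρ * W) ^ 3) * Lc := by gcongr
          _ = Lc + W ^ 3 * (ρ ^ 3 * Lc) := by ring
          _ ≤ m + W ^ 3 * m := by gcongr
          _ = (1 + W ^ 3) * m := by ring
      push_cast
      calc ((n : ℝ) + 1) * Lc * (E * (1 + ‖w‖ ^ 3)) = E * (n + 1) * ((1 + ‖w‖ ^ 3) * Lc) := by ring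
        _ ≤ E * (n + 1) * ((1 + W ^ 3) * m) := by gcongr
        _ = (m : ℝ) * (E * (1 + W ^ 3) * (n + 1)) := by ring
    rw [hBG]
    gcongr
  set M : Fin n → Finset ℂ := fun k =>
    Finset.univ.image (fun r : Fin S => (((r : ℕ) : ℂ) - ((s k : ℕ) : ℂ))) with hM
  have hschw : ∀ l : List (Fin n), l.length = m → ‖DL (l.map c.U) (e.G ξ) (c.pt s)‖ ≤
      m.factorial * ((S : ℝ) * (2 / ρ)) ^ (S * (m / n)) * ((V * m) ^ m * BG) := by
    intro l hl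
    refine schwarz_all (e.analytic_G ξ) hn (c.pt s) c.U M ?_ S m ?_ ?_ ?_ V ρ BG hV1 hVU hρR
      hGball l hl
    · intro k
      exact Finset.mem_image.2 ⟨s k, Finset.mem_univ _, sub_self _⟩
    · intro k
      rw [Finset.card_image_of_injective, Finset.card_univ, Fintype.card_fin]
      intro r r' hrr
      have h1 : ((r : ℕ) : ℂ) = ((r' : ℕ) : ℂ) := sub_left_injective hrr
      exact Fin.ext (by exact_mod_cast h1)
    · intro k r hr
      obtain ⟨r', _, rfl⟩ := Finset.mem_image.1 hr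
      have h1 : (((r' : ℕ) : ℂ) - ((s k : ℕ) : ℂ)) = (((r' : ℤ) - (s k : ℤ) : ℤ) : ℂ) := by
        push_cast
        ring
      rw [h1, Complex.norm_intCast]
      have h2 : |((r' : ℕ) : ℤ) - ((s k : ℕ) : ℤ)| ≤ S := by
        have := r'.2
        have := (s k).2
        rw [abs_le]
        constructor <;> omega
      exact_mod_cast h2
    · intro k r hr
      obtain ⟨r', _, rfl⟩ := Finset.mem_image.1 hr
      rw [← pt_update]
      exact (hmul _).1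
  have hchange := DL_change (C := CU) (f := e.G ξ) isOpen_univ (Set.mem_univ (c.pt s)) (e.analytic_G ξ) c.U _
    (by linarith) (by positivity) m hschw (Set.range e.v) (by
      rintro w ⟨j, rfl⟩
      refine ⟨κ (e.v j), hκ _, ?_⟩
      have h1 : ∑ k, ‖κ (e.v j) k‖ ≤ ∑ j, ∑ k, ‖κ (e.v j) k‖ :=
        Finset.single_le_sum (f := fun j => ∑ k, ‖κ (e.v j) k‖)
          (fun j _ => Finset.sum_nonneg fun k _ => norm_nonneg _) (Finset.mem_univ j)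
      rw [hCU]
      linarith) (l.map e.v) (by
      intro w hw
      obtain ⟨j, _, rfl⟩ := List.mem_map.1 hw
      exact ⟨j, rfl⟩) (by rw [List.length_map, hlen])
  rw [(hmul s).2 _ (by rw [List.length_map, hlen]), norm_mul] at hchange
  set Y := ‖DL (l.map e.v) (e.Fn (Phi ξ)) (c.pt s)‖ with hY
  have hY0 : 0 ≤ Y := norm_nonneg _
  have hv2 : v ^ m * Y ≤ ‖c.theta Lc (c.pt s)‖ * Y := by
    apply mul_le_mul_of_nonneg_right _ hY0
    exact (pow_le_pow_of_le_one hv0.le hv1 hLm).trans (hv s Lc)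
  have h1 := hv2.trans hchange
  -- multiply by `ρ ^ (S * (m / n))`
  have hρS : ((S : ℝ) * (2 / ρ)) ^ (S * (m / n)) * (ρ : ℝ) ^ (S * (m / n)) ≤ ((2 * S) ^ S) ^ m := by
    rw [← mul_pow]
    have h2 : (S : ℝ) * (2 / ρ) * ρ = 2 * S := by field_simp
    rw [h2, ← pow_mul]
    apply pow_le_pow_right₀ (by linarith)
    exact Nat.mul_le_mul_left _ (Nat.div_le_self _ _)
  have hfac : (m.factorial : ℝ) ≤ (m : ℝ) ^ m := by exact_mod_cast Nat.factorial_le_pow m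
  have h2 : v ^ m * (Y * (ρ : ℝ) ^ (S * (m / n))) ≤
      CU ^ m * ((m : ℝ) ^ m * ((2 * S) ^ S) ^ m * ((V * m) ^ m * BG)) := by
    calc v ^ m * (Y * (ρ : ℝ) ^ (S * (m / n))) = v ^ m * Y * (ρ : ℝ) ^ (S * (m / n)) := by ring
      _ ≤ (CU ^ m * (m.factorial * ((S : ℝ) * (2 / ρ)) ^ (S * (m / n)) * ((V * m) ^ m * BG))) *
          (ρ : ℝ) ^ (S * (m / n)) := mul_le_mul_of_nonneg_right h1 (by positivity)
      _ = CU ^ m * (m.factorial * (((S : ℝ) * (2 / ρ)) ^ (S * (m / n)) * (ρ : ℝ) ^ (S * (m / n))) *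
          ((V * m) ^ m * BG)) := by ring
      _ ≤ _ := by gcongr
  have h3 : Y * (ρ : ℝ) ^ (S * (m / n)) ≤ v⁻¹ ^ m *
      (CU ^ m * ((m : ℝ) ^ m * ((2 * S) ^ S) ^ m * ((V * m) ^ m * BG))) := by
    calc Y * (ρ : ℝ) ^ (S * (m / n)) = v⁻¹ ^ m * (v ^ m * (Y * (ρ : ℝ) ^ (S * (m / n)))) := by
          rw [← mul_assoc, ← mul_pow, inv_mul_cancel₀ hv0.ne', one_pow, one_mul]
      _ ≤ _ := mul_le_mul_of_nonneg_left h2 (by positivity)
  refine h3.trans (le_of_eq ?_)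
  rw [hBG, mul_pow V, two_mul m, pow_add]
  simp only [mul_pow]
  ring

end Den

end SL

end Pool.Agent.W245.EB
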