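import Mathlib

set_option autoImplicit false
set_option linter.unusedVariables false
set_option linter.unusedSectionVars false

/-!
# Iterated directional derivatives of analytic functions
-/

open Filter
open scoped Topology Nat

noncomputable section

namespace Pool.Agent.W245.EB

variable {E : Type*} [NormedAddCommGroup E] [NormedSpace ℂ E]

/-- directional derivative -/
def D (v : E) (f : E → ℂ) : E → ℂ := fun z => fderiv ℂ f z v

/-- iterated directional derivative -/
def DL : List E → (E → ℂ) → (E → ℂ)
  | [], f => f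
  | v :: l, f => D v (DL l f)

@[simp] lemma DL_nil (f : E → ℂ) : DL [] f = f := rfl
@[simp] lemma DL_cons (v : E) (l : List E) (f : E → ℂ) : DL (v :: l) f = D v (DL l f) := rfl

lemma DL_append (l l' : List E) (f : E → ℂ) : DL (l ++ l') f = DL l (DL l' f) := by
  induction l with
  | nil => rfl
  | cons v l ih => simp [ih]

variable {O : Set E} {f g : E → ℂ}

lemma analytic_D (hf : AnalyticOnNhd ℂ f O) (v : E) : AnalyticOnNhd ℂ (D v f) O := by
  intro z hz
  exact ((ContinuousLinearMap.apply ℂ ℂ v).analyticAt _).comp (hf.fderiv z hz)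

lemma analytic_DL (hf : AnalyticOnNhd ℂ f O) (l : List E) : AnalyticOnNhd ℂ (DL l f) O := by
  induction l with
  | nil => exact hf
  | cons v l ih => exact analytic_D ih v

lemma D_congr (hO : IsOpen O) (h : Set.EqOn f g O) (v : E) : Set.EqOn (D v f) (D v g) O := by
  intro z hz
  have : f =ᶠ[𝓝 z] g := by
    filter_upwards [hO.mem_nhds hz] with x hx using h hx
  simp only [D]
  rw [this.fderiv_eq]

lemma DL_congr (hO : IsOpen O) (h : Set.EqOn f g O) (l : List E) :
    Set.EqOn (DL l f) (DL l g) O := by
  induction l with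
  | nil => exact h
  | cons v l ih => exact D_congr hO ih v

lemma D_comm (hf : AnalyticOnNhd ℂ f O) (v w : E) : Set.EqOn (D v (D w f)) (D w (D v f)) O := by
  intro z hz
  have h1 : ∀ a b : E, D a (D b f) z = fderiv ℂ (fderiv ℂ f) z a b := by
    intro a b
    have hd : DifferentiableAt ℂ (fderiv ℂ f) z := (hf.fderiv z hz).differentiableAt
    have h2 := (hd.hasFDerivAt.clm_apply (hasFDerivAt_const b z))
    have h3 : HasFDerivAt (D b f) (fderiv ℂ f z ∘SL 0 + (fderiv ℂ (fderiv ℂ f) z).flip b) z := h2
    show fderiv ℂ (D b f) z a = _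
    rw [h3.fderiv]
    simp
  rw [h1, h1]
  have hs : IsSymmSndFDerivAt ℂ f z := by
    have hc : ContDiffAt ℂ ⊤ f z := (hf z hz).contDiffAt
    exact hc.isSymmSndFDerivAt (by simp)
  exact hs v w

lemma DL_perm (hO : IsOpen O) (hf : AnalyticOnNhd ℂ f O) {l l' : List E} (h : l.Perm l') :
    Set.EqOn (DL l f) (DL l' f) O := by
  induction h with
  | nil => exact fun _ _ => rfl
  | cons v _ ih => exact D_congr hO ih v
  | swap v w l => exact D_comm (analytic_DL hf l) w v
  | trans _ _ ih1 ih2 => exact ih1.trans ih2

lemma D_add_vec (v w : E) (f : E → ℂ) (z : E) : D (v + w) f z = D v f z + D w f z := by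
  simp [D]

lemma D_smul_vec (c : ℂ) (v : E) (f : E → ℂ) (z : E) : D (c • v) f z = c * D v f z := by
  simp [D]

lemma D_sum_vec {ι : Type*} (s : Finset ι) (c : ι → ℂ) (v : ι → E) (f : E → ℂ) (z : E) :
    D (∑ i ∈ s, c i • v i) f z = ∑ i ∈ s, c i * D (v i) f z := by
  simp [D]

lemma D_add_fun {z : E} (hf : DifferentiableAt ℂ f z) (hg : DifferentiableAt ℂ g z) (v : E) :
    D v (fun x => f x + g x) z = D v f z + D v g z := by
  simp only [D]
  rw [fderiv_fun_add hf hg]
  rfl

lemma D_const_mul_fun {z : E} (hf : DifferentiableAt ℂ f z) (c : ℂ) (v : E) :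
    D v (fun x => c * f x) z = c * D v f z := by
  simp only [D]
  rw [fderiv_const_mul hf]
  rfl

lemma D_sum_fun {ι : Type*} (s : Finset ι) (F : ι → E → ℂ) {z : E}
    (hF : ∀ i ∈ s, DifferentiableAt ℂ (F i) z) (c : ι → ℂ) (v : E) :
    D v (fun x => ∑ i ∈ s, c i * F i x) z = ∑ i ∈ s, c i * D v (F i) z := by
  simp only [D]
  rw [fderiv_fun_sum (fun i hi => (hF i hi).const_mul _)]
  rw [sum_apply]
  apply Finset.sum_congr rfl
  intro i hi
  rw [fderiv_const_mul (hF i hi)]
  rfl

lemma D_mul_fun {z : E} (hf : DifferentiableAt ℂ f z) (hg : DifferentiableAt ℂ g z) (v : E) :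
    D v (fun x => f x * g x) z = f z * D v g z + g z * D v f z := by
  simp only [D]
  rw [fderiv_fun_mul hf hg]
  simp

/-- linearity of `DL` in the function -/
lemma DL_sum_fun (hO : IsOpen O) {ι : Type*} (s : Finset ι) (F : ι → E → ℂ)
    (hF : ∀ i ∈ s, AnalyticOnNhd ℂ (F i) O) (c : ι → ℂ) (l : List E) :
    Set.EqOn (DL l (fun x => ∑ i ∈ s, c i * F i x)) (fun x => ∑ i ∈ s, c i * DL l (F i) x) O := by
  induction l with
  | nil => exact fun _ _ => rfl
  | cons v l ih =>
    intro z hz
    rw [DL_cons, D_congr hO ih v hz,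
      D_sum_fun s (fun i => DL l (F i)) (fun i hi => (analytic_DL (hF i hi) l z hz).differentiableAt)]
    rfl

/-- vanishing order -/
def Ord (f : E → ℂ) (p : E) (T : ℕ) : Prop := ∀ l : List E, l.length < T → DL l f p = 0

/-- Leibniz rule for functions vanishing to high order -/
lemma ord_mul (hO : IsOpen O) {p : E} (hp : p ∈ O) (T : ℕ) : ∀ (f g : E → ℂ),
    AnalyticOnNhd ℂ f O → AnalyticOnNhd ℂ g O → Ord g p T →
    Ord (fun x => f x * g x) p T ∧
      ∀ l : List E, l.length = T → DL l (fun x => f x * g x) p = f p * DL l g p := by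
  induction T with
  | zero =>
    intro f g hf hg _
    refine ⟨fun l hl => absurd hl (Nat.not_lt_zero _), ?_⟩
    intro l hl
    have : l = [] := List.length_eq_zero_iff.1 hl
    subst this
    rfl
  | succ T ih =>
    intro f g hf hg hg0
    have key : ∀ (l : List E) (v : E), DL (l ++ [v]) (fun x => f x * g x) p =
        DL l (fun x => f x * D v g x) p + DL l (fun x => D v f x * g x) p := by
      intro l v
      rw [DL_append]
      have h1 : Set.EqOn (DL [v] (fun x => f x * g x)) (fun x => f x * D v g x + D v f x * g x) O := by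
        intro z hz
        show D v (fun x => f x * g x) z = _
        rw [D_mul_fun (hf z hz).differentiableAt (hg z hz).differentiableAt]
        ring
      rw [DL_congr hO h1 l hp]
      have h2 := DL_sum_fun hO (Finset.univ : Finset Bool)
        (fun b => if b then (fun x => f x * D v g x) else (fun x => D v f x * g x)) (by
          intro b _
          cases b
          · intro z hz
            simpa using (analytic_D hf v z hz).fun_mul (hg z hz)
          · intro z hz
            simpa using (hf z hz).fun_mul (analytic_D hg v z hz)) (fun _ => 1) l hp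
      simpa using h2
    have hgT : Ord g p T := fun l hl => hg0 l (by omega)
    have hDg : ∀ v, Ord (D v g) p T := by
      intro v l hl
      have := hg0 (l ++ [v]) (by simp; omega)
      rwa [DL_append] at this
    have hmain : ∀ l : List E, l.length ≤ T → ∀ v, DL (l ++ [v]) (fun x => f x * g x) p =
        if l.length = T then f p * DL (l ++ [v]) g p else 0 := by
      intro l hl v
      rw [key]
      obtain ⟨a1, a2⟩ := ih f (D v g) hf (analytic_D hg v) (hDg v)
      obtain ⟨b1, b2⟩ := ih (D v f) g (analytic_D hf v) hg hgT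
      by_cases hlT : l.length = T
      · rw [if_pos hlT, a2 l hlT, b2 l hlT, hg0 l (by omega), mul_zero, add_zero, DL_append]
        rfl
      · rw [if_neg hlT, a1 l (by omega), b1 l (by omega), add_zero]
    have hzero : f p * g p = 0 := by
      have : g p = 0 := hg0 [] (by simp)
      rw [this, mul_zero]
    constructor
    · intro l hl
      rcases l.eq_nil_or_concat with h | ⟨l', v, h⟩
      · subst h
        exact hzero
      · subst h
        simp only [List.concat_eq_append, List.length_append, List.length_singleton] at hl ⊢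
        rw [hmain l' (by omega) v, if_neg (by omega)]
    · intro l hl
      rcases l.eq_nil_or_concat with h | ⟨l', v, h⟩
      · subst h
        simp at hl
      · subst h
        simp only [List.concat_eq_append, List.length_append, List.length_singleton] at hl ⊢
        rw [hmain l' (by omega) v, if_pos (by omega)]

/-- Change of directions: derivatives in arbitrary directions are combinations of derivatives in
the directions of a spanning family. -/
lemma DL_change (hO : IsOpen O) {p : E} (hp : p ∈ O) (hf : AnalyticOnNhd ℂ f O) {ι : Type*}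
    [Fintype ι] (U : ι → E) (C B : ℝ) (hC : 0 ≤ C) (hB : 0 ≤ B) (m : ℕ)
    (hU : ∀ l : List ι, l.length = m → ‖DL (l.map U) f p‖ ≤ B) (A : Set E)
    (hA : ∀ v ∈ A, ∃ κ : ι → ℂ, v = ∑ i, κ i • U i ∧ ∑ i, ‖κ i‖ ≤ C) :
    ∀ l : List E, (∀ v ∈ l, v ∈ A) → l.length = m → ‖DL l f p‖ ≤ C ^ m * B := by
  have key : ∀ (l : List E), (∀ v ∈ l, v ∈ A) → ∀ l' : List ι, l.length + l'.length = m →
      ‖DL (l ++ l'.map U) f p‖ ≤ C ^ l.length * B := by
    intro l
    induction l using List.reverseRecOn with
    | nil =>
      intro _ l' hl'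
      simpa using hU l' (by simpa using hl')
    | append_singleton l v ih =>
      intro hl l' hl'
      obtain ⟨κ, hv, hκ⟩ := hA v (hl v (by simp))
      have h1 : Set.EqOn (DL (v :: l'.map U) f) (fun x => ∑ i ∈ Finset.univ, κ i * DL (U i :: l'.map U) f x) O := by
        intro z hz
        rw [DL_cons, hv, D_sum_vec]
        rfl
      have h2 : DL (l ++ [v] ++ l'.map U) f p = ∑ i, κ i * DL (l ++ (i :: l').map U) f p := by
        rw [List.append_assoc, DL_append]
        simp only [List.singleton_append]
        rw [DL_congr hO h1 l hp,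
          DL_sum_fun hO Finset.univ (fun i => DL (U i :: l'.map U) f) (fun i _ => analytic_DL hf _) κ l hp]
        apply Finset.sum_congr rfl
        intro i _
        rw [List.map_cons, DL_append]
      rw [h2]
      calc ‖∑ i, κ i * DL (l ++ (i :: l').map U) f p‖
          ≤ ∑ i, ‖κ i * DL (l ++ (i :: l').map U) f p‖ := norm_sum_le _ _
        _ ≤ ∑ i, ‖κ i‖ * (C ^ l.length * B) := by
          apply Finset.sum_le_sum
          intro i _
          rw [norm_mul]
          apply mul_le_mul_of_nonneg_left _ (norm_nonneg _)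
          apply ih (fun v hv => hl v (by simp [hv]))
          simp only [List.length_append, List.length_cons, List.length_nil] at hl' ⊢
          omega
        _ = (∑ i, ‖κ i‖) * (C ^ l.length * B) := by rw [Finset.sum_mul]
        _ ≤ C * (C ^ l.length * B) := mul_le_mul_of_nonneg_right hκ (by positivity)
        _ = C ^ (l ++ [v]).length * B := by
          simp only [List.length_append, List.length_cons, List.length_nil]
          ring
  intro l hl hlen
  have := key l hl [] (by simpa using hlen)
  simpa [hlen] using this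

/-- restriction to a line -/
lemma hasDerivAt_line (hf : AnalyticOnNhd ℂ f Set.univ) (z v : E) (t : ℂ) :
    HasDerivAt (fun s : ℂ => f (z + s • v)) (D v f (z + t • v)) t := by
  have h1 : HasFDerivAt f (fderiv ℂ f (z + t • v)) (z + t • v) :=
    (hf _ (Set.mem_univ _)).differentiableAt.hasFDerivAt
  have h2 : HasDerivAt (fun s : ℂ => z + s • v) v t := by
    simpa using ((hasDerivAt_id t).smul_const v).const_add z
  exact h1.comp_hasDerivAt t h2

lemma iteratedDeriv_line (hf : AnalyticOnNhd ℂ f Set.univ) (z v : E) (k : ℕ) (t : ℂ) :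
    iteratedDeriv k (fun s : ℂ => f (z + s • v)) t = DL (List.replicate k v) f (z + t • v) := by
  induction k generalizing t with
  | zero => simp
  | succ k ih =>
    rw [iteratedDeriv_succ]
    have : iteratedDeriv k (fun s : ℂ => f (z + s • v)) =
        fun s => DL (List.replicate k v) f (z + s • v) := by
      funext s
      exact ih s
    rw [this, List.replicate_succ, DL_cons]
    exact (hasDerivAt_line (analytic_DL hf _) z v t).deriv

lemma differentiable_line (hf : AnalyticOnNhd ℂ f Set.univ) (z v : E) :
    Differentiable ℂ (fun s : ℂ => f (z + s • v)) :=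
  fun t => (hasDerivAt_line hf z v t).differentiableAt

/-- Cauchy estimates -/
lemma cauchy_DL (hf : AnalyticOnNhd ℂ f Set.univ) {V ρ M : ℝ} (hV : 0 ≤ V) (hρ : 0 < ρ) :
    ∀ (l : List E), (∀ v ∈ l, ‖v‖ ≤ V) → ∀ w : E,
      (∀ w' : E, ‖w' - w‖ ≤ ρ * V * l.length → ‖f w'‖ ≤ M) → ‖DL l f w‖ ≤ M / ρ ^ l.length := by
  intro l
  induction l with
  | nil =>
    intro _ w h
    simpa using h w (by simp)
  | cons v l ih =>
    intro hl w h
    have h1 : ∀ t : ℂ, ‖t‖ = ρ → ‖DL l f (w + t • v)‖ ≤ M / ρ ^ l.length := by
      intro t ht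
      apply ih (fun v' hv' => hl v' (by simp [hv']))
      intro w' hw'
      apply h
      have hv : ‖v‖ ≤ V := hl v (by simp)
      calc ‖w' - w‖ = ‖(w' - (w + t • v)) + t • v‖ := by congr 1; abel
        _ ≤ ‖w' - (w + t • v)‖ + ‖t • v‖ := norm_add_le _ _
        _ ≤ ρ * V * l.length + ρ * V := by
          apply add_le_add hw'
          rw [norm_smul, ht]
          exact mul_le_mul_of_nonneg_left hv hρ.le
        _ = ρ * V * ((v :: l).length : ℕ) := by
          simp only [List.length_cons]
          push_cast
          ring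
    have h2 : DL (v :: l) f w = deriv (fun s : ℂ => DL l f (w + s • v)) 0 := by
      rw [(hasDerivAt_line (analytic_DL hf l) w v 0).deriv]
      simp
    rw [h2]
    have h3 := Complex.norm_deriv_le_of_forall_mem_sphere_norm_le (c := 0) (R := ρ)
      (C := M / ρ ^ l.length) (f := fun s : ℂ => DL l f (w + s • v)) hρ
      (differentiable_line (analytic_DL hf l) w v).diffContOnCl (by
        intro t ht
        apply h1
        simpa using ht)
    refine h3.trans (le_of_eq ?_)
    rw [List.length_cons, pow_succ, div_div]

/-- identity theorem -/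
lemma eq_zero_of_DL (hf : AnalyticOnNhd ℂ f Set.univ) (p : E) (h : ∀ l : List E, DL l f p = 0)
    (z : E) : f z = 0 := by
  have h1 := Complex.hasSum_taylorSeries_of_entire
    (f := fun s : ℂ => f (p + s • (z - p))) (differentiable_line hf p (z - p)) 0 1
  have h2 : ∀ k : ℕ, iteratedDeriv k (fun s : ℂ => f (p + s • (z - p))) 0 = 0 := by
    intro k
    rw [iteratedDeriv_line hf, zero_smul, add_zero]
    exact h _
  simp only [h2, smul_zero] at h1
  have h3 := h1.unique hasSum_zero
  simpa using h3

end Pool.Agent.W245.EB
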